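import Mathlib

/-!
# Complements of multicone graphs that are not determined by their spectrum
-/

set_option autoImplicit false

namespace Pool.Agent.Results.MP_cd2ba9_co.NotDS

open Matrix Finset Polynomial

section defs

variable {V W : Type} [Fintype V] [DecidableEq V] [Fintype W] [DecidableEq W]

/-- cospectrality: equal characteristic polynomials of the adjacency matrices, that is, the same
eigenvalues with the same multiplicities -/
def Cospectral (G : SimpleGraph V) [DecidableRel G.Adj] (H : SimpleGraph W) [DecidableRel H.Adj] :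
    Prop :=
  (G.adjMatrix ℝ).charpoly = (H.adjMatrix ℝ).charpoly

/-- `G` is determined by its adjacency spectrum -/
def IsDS (G : SimpleGraph V) [DecidableRel G.Adj] : Prop :=
  ∀ (W : Type) [Fintype W] [DecidableEq W] (H : SimpleGraph W) [DecidableRel H.Adj],
    Cospectral H G → Nonempty (H ≃g G)

/-- the join of two graphs -/
def join {V W : Type} (G : SimpleGraph V) (H : SimpleGraph W) : SimpleGraph (V ⊕ W) where
  Adj x y := match x, y with
    | Sum.inl a, Sum.inl b => G.Adj a b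
    | Sum.inl _, Sum.inr _ => True
    | Sum.inr _, Sum.inl _ => True
    | Sum.inr a, Sum.inr b => H.Adj a b
  symm := ⟨by
    intro x y
    rcases x with x | x <;> rcases y with y | y <;> simp [G.adj_comm, H.adj_comm]⟩
  loopless := ⟨by
    intro x
    rcases x with x | x <;> simp⟩

instance {V W : Type} (G : SimpleGraph V) [DecidableRel G.Adj] (H : SimpleGraph W)
    [DecidableRel H.Adj] : DecidableRel (join G H).Adj := by
  intro x y
  rcases x with x | x <;> rcases y with y | y <;> unfold join <;> simp only <;> infer_instance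

instance {V W : Type} (G : SimpleGraph V) [DecidableRel G.Adj] (H : SimpleGraph W)
    [DecidableRel H.Adj] : DecidableRel (G ⊕g H).Adj := by
  intro x y
  rw [SimpleGraph.sum_adj]
  rcases x with x | x <;> rcases y with y | y <;> simp only <;> infer_instance

/-- the disjoint union of `m` copies of the cycle `Cₙ` -/
def mCn (m n : ℕ) : SimpleGraph (Fin m × Fin n) where
  Adj x y := x.1 = y.1 ∧ (SimpleGraph.cycleGraph n).Adj x.2 y.2
  symm := ⟨fun _ _ h => ⟨h.1.symm, h.2.symm⟩⟩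
  loopless := ⟨fun _ h => h.2.ne rfl⟩

instance (m n : ℕ) : DecidableRel (mCn m n).Adj := fun x y =>
  inferInstanceAs (Decidable (x.1 = y.1 ∧ (SimpleGraph.cycleGraph n).Adj x.2 y.2))

/-- the multicone graph: the join of the complete graph on `w` vertices with `m` copies of `Cₙ` -/
def multicone (w m n : ℕ) : SimpleGraph (Fin w ⊕ (Fin m × Fin n)) :=
  join (⊤ : SimpleGraph (Fin w)) (mCn m n)

instance (w m n : ℕ) : DecidableRel (multicone w m n).Adj :=
  inferInstanceAs (DecidableRel (join (⊤ : SimpleGraph (Fin w)) (mCn m n)).Adj)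

end defs

lemma compl_multicone (w m n : ℕ) :
    (multicone w m n)ᶜ = ((⊥ : SimpleGraph (Fin w)) ⊕g (mCn m n)ᶜ) := by
  ext x y
  rcases x with x | x <;> rcases y with y | y <;>
    simp [multicone, join, SimpleGraph.compl_adj]

section general

variable {V : Type} [Fintype V] [DecidableEq V]

lemma charpoly_pad (k : ℕ) (X : SimpleGraph V) [DecidableRel X.Adj] :
    (((⊥ : SimpleGraph (Fin k)) ⊕g X).adjMatrix ℝ).charpoly
      = (Polynomial.X ^ k : ℝ[X]) * (X.adjMatrix ℝ).charpoly := by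
  have h : ((⊥ : SimpleGraph (Fin k)) ⊕g X).adjMatrix ℝ
      = Matrix.fromBlocks 0 0 0 (X.adjMatrix ℝ) := by
    ext x y
    rcases x with x | x <;> rcases y with y | y <;> simp [SimpleGraph.adjMatrix_apply]
  rw [h, Matrix.charpoly_fromBlocks_zero₁₂]
  congr 1
  simp [Matrix.charpoly_zero]

lemma degree_pad_inr (k : ℕ) (X : SimpleGraph V) [DecidableRel X.Adj] (v : V) :
    ((⊥ : SimpleGraph (Fin k)) ⊕g X).degree (Sum.inr v) = X.degree v := by
  rw [← SimpleGraph.card_neighborFinset_eq_degree, ← SimpleGraph.card_neighborFinset_eq_degree]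
  have h : ((⊥ : SimpleGraph (Fin k)) ⊕g X).neighborFinset (Sum.inr v)
      = (X.neighborFinset v).map ⟨Sum.inr, Sum.inr_injective⟩ := by
    ext x
    rcases x with x | x <;> simp
  rw [h, Finset.card_map]

lemma degree_pad_inl (k : ℕ) (X : SimpleGraph V) [DecidableRel X.Adj] (v : Fin k) :
    ((⊥ : SimpleGraph (Fin k)) ⊕g X).degree (Sum.inl v) = 0 := by
  rw [← SimpleGraph.card_neighborFinset_eq_degree, Finset.card_eq_zero]
  ext x
  rcases x with x | x <;> simp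

lemma isDS_congr (G G' : SimpleGraph V) [inst : DecidableRel G.Adj] [inst' : DecidableRel G'.Adj]
    (h : G = G') (hG : IsDS G) : IsDS G' := by
  subst h
  have : inst = inst' := Subsingleton.elim _ _
  subst this
  exact hG

/-- the general criterion -/
theorem notDS (w m n k : ℕ) (Y : SimpleGraph V) [DecidableRel Y.Adj] (d : ℕ) (v : V)
    (hcos : Cospectral Y ((⊥ : SimpleGraph (Fin w)) ⊕g (mCn m n)ᶜ))
    (hv : d < Y.degree v) (hd : ∀ x, (mCn m n)ᶜ.degree x ≤ d) :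
    ¬ IsDS (multicone (k + w) m n)ᶜ := by
  intro h
  have h := isDS_congr _ _ (compl_multicone _ _ _) h
  have h1 : Cospectral ((⊥ : SimpleGraph (Fin k)) ⊕g Y)
      ((⊥ : SimpleGraph (Fin (k + w))) ⊕g (mCn m n)ᶜ) := by
    unfold Cospectral at hcos ⊢
    rw [charpoly_pad] at hcos
    rw [charpoly_pad, charpoly_pad, hcos, pow_add, mul_assoc]
  obtain ⟨f⟩ := h _ _ h1
  have h2 := f.degree_eq (Sum.inr v)
  rw [degree_pad_inr] at h2
  rcases hx : f (Sum.inr v) with x | x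
  · rw [hx, degree_pad_inl] at h2
    omega
  · rw [hx, degree_pad_inr] at h2
    have := hd x
    omega

end general

/-- similar rational matrices give equal characteristic polynomials over the reals -/
lemma charpoly_similar {N : ℕ} (A B P Q : Matrix (Fin N) (Fin N) ℚ) (c : ℚ) (hc : c ≠ 0)
    (h1 : A * P = P * B) (h2 : P * Q = c • 1) : A.charpoly = B.charpoly := by
  have h3 : P * (c⁻¹ • Q) = 1 := by
    rw [mul_smul_comm, h2, smul_smul, inv_mul_cancel₀ hc, one_smul]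
  have h4 : (c⁻¹ • Q) * P = 1 := mul_eq_one_comm.mp h3
  have h5 : A = P * B * (c⁻¹ • Q) := by
    rw [← h1, mul_assoc, h3, mul_one]
  rw [h5]
  have h6 := Matrix.charpoly_units_conj ⟨P, c⁻¹ • Q, h3, h4⟩ B
  simp only [Matrix.inv_eq_right_inv h3] at h6
  exact h6

/-! ### the case `n = 3`: the star `K₁,₉` -/

/-- the reindexing -/
def e3 : Fin 4 ⊕ (Fin 2 × Fin 3) ≃ Fin 10 :=
  (Equiv.sumCongr (Equiv.refl _) finProdFinEquiv).trans finSumFinEquiv

/-- the reindexing -/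
def e4 : Fin 4 ⊕ (Fin 2 × Fin 4) ≃ Fin 12 :=
  (Equiv.sumCongr (Equiv.refl _) finProdFinEquiv).trans finSumFinEquiv

/-- adjacency of the star `K₁,₉` -/
def y3 (i j : Fin 10) : Bool := (i == 0) != (j == 0)

/-- the star -/
def Y3 : SimpleGraph (Fin 10) where
  Adj i j := y3 i j = true
  symm := ⟨by decide⟩
  loopless := ⟨by decide⟩

instance : DecidableRel Y3.Adj := fun i j => inferInstanceAs (Decidable (y3 i j = true))

/-- adjacency of the union of two disjoint edges `01`, `23` and the complete multipartite graph with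
parts `4`, `5`, `6`, and the rest -/
def y4 (i j : Fin 12) : Bool :=
  (i != j) && ((i.val < 2 && j.val < 2) || (2 ≤ i.val && i.val < 4 && 2 ≤ j.val && j.val < 4) ||
    (4 ≤ i.val && 4 ≤ j.val && (i.val < 7 || j.val < 7)))

/-- the second mate -/
def Y4 : SimpleGraph (Fin 12) where
  Adj i j := y4 i j = true
  symm := ⟨by decide⟩
  loopless := ⟨by decide⟩

instance : DecidableRel Y4.Adj := fun i j => inferInstanceAs (Decidable (y4 i j = true))

/-- adjacency of four isolated vertices and `K₃,₃` -/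
def z3 (i j : Fin 10) : Bool := 4 ≤ i.val && 4 ≤ j.val && ((i.val < 7) != (j.val < 7))

/-- adjacency of four isolated vertices and the complement of `2 C₄` -/
def z4 (i j : Fin 12) : Bool :=
  4 ≤ i.val && 4 ≤ j.val && (((i.val < 8) != (j.val < 8)) || (i.val + 2 == j.val) ||
    (j.val + 2 == i.val))

/-- zero-one matrices -/
def mt {N : ℕ} (f : Fin N → Fin N → Bool) : Matrix (Fin N) (Fin N) ℚ :=
  Matrix.of fun i j => if f i j then 1 else 0

lemma adj_mt {N : ℕ} (f : Fin N → Fin N → Bool) (G : SimpleGraph (Fin N)) [DecidableRel G.Adj]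
    (h : ∀ i j, G.Adj i j ↔ f i j = true) :
    G.adjMatrix ℝ = (mt f).map (algebraMap ℚ ℝ) := by
  ext i j
  rw [Matrix.map_apply, SimpleGraph.adjMatrix_apply, mt, Matrix.of_apply]
  by_cases hf : f i j = true
  · rw [if_pos ((h i j).mpr hf), if_pos hf]; simp
  · rw [if_neg (fun hc => hf ((h i j).mp hc)), if_neg hf]; simp

lemma cos_of {V : Type} [Fintype V] [DecidableEq V] {N : ℕ} (f g : Fin N → Fin N → Bool)
    (Y : SimpleGraph (Fin N)) [DecidableRel Y.Adj] (Z : SimpleGraph V) [DecidableRel Z.Adj]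
    (e : V ≃ Fin N) (hY : ∀ i j, Y.Adj i j ↔ f i j = true)
    (hZ : ∀ x y, Z.Adj x y ↔ g (e x) (e y) = true)
    (hs : (mt f).charpoly = (mt g).charpoly) : Cospectral Y Z := by
  unfold Cospectral
  have h1 : Z.adjMatrix ℝ = Matrix.reindex e.symm e.symm ((mt g).map (algebraMap ℚ ℝ)) := by
    ext x y
    rw [Matrix.reindex_apply, Matrix.submatrix_apply, Matrix.map_apply,
      SimpleGraph.adjMatrix_apply, mt, Matrix.of_apply, Equiv.symm_symm]
    by_cases hf : g (e x) (e y) = true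
    · rw [if_pos ((hZ x y).mpr hf), if_pos hf]; simp
    · rw [if_neg (fun hc => hf ((hZ x y).mp hc)), if_neg hf]; simp
  rw [h1, Matrix.charpoly_reindex, adj_mt f Y hY, Matrix.charpoly_map, Matrix.charpoly_map, hs]

/-- an intertwining matrix -/
def P3 : Matrix (Fin 10) (Fin 10) ℚ :=
  !![0,0,0,0,3,3,3,0,0,0;-3,-3,-3,-3,2,-1,-1,3,0,0;3,0,0,0,0,0,0,1,1,1;0,3,0,0,0,0,0,1,1,1;0,0,3,0,0,0,0,1,1,1;0,0,0,3,0,0,0,1,1,1;0,0,0,0,-1,2,-1,1,1,1;0,0,0,0,-1,-1,2,1,1,1;0,0,0,0,0,0,0,0,3,0;0,0,0,0,0,0,0,0,0,3]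

/-- its inverse up to a factor -/
def Q3 : Matrix (Fin 10) (Fin 10) ℚ :=
  !![0,-1,8,-1,-1,-1,-1,-1,-1,-1;0,-1,-1,8,-1,-1,-1,-1,-1,-1;0,-1,-1,-1,8,-1,-1,-1,-1,-1;0,-1,-1,-1,-1,8,-1,-1,-1,-1;3,2,2,2,2,2,-7,-7,2,2;3,-1,-1,-1,-1,-1,8,-1,-1,-1;3,-1,-1,-1,-1,-1,-1,8,-1,-1;0,3,3,3,3,3,3,3,-6,-6;0,0,0,0,0,0,0,0,9,0;0,0,0,0,0,0,0,0,0,9]

/-- an intertwining matrix -/
def P4 : Matrix (Fin 12) (Fin 12) ℚ :=
  !![0,0,0,0,3,3,-9,3,0,0,0,0;0,0,0,0,-9,3,3,3,0,0,0,0;0,0,0,0,0,6,0,-6,-3,3,-3,3;0,0,0,0,0,-6,0,6,-3,3,-3,3;0,0,0,0,4,4,4,4,7,7,-5,-5;0,0,0,0,4,4,4,4,-5,1,7,1;0,0,0,0,4,4,4,4,1,-5,1,7;-12,-12,-12,-12,0,0,0,0,3,3,3,3;12,0,0,0,0,0,0,0,3,3,3,3;0,12,0,0,0,0,0,0,3,3,3,3;0,0,12,0,0,0,0,0,3,3,3,3;0,0,0,12,0,0,0,0,3,3,3,3]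

/-- its inverse up to a factor -/
def Q4 : Matrix (Fin 12) (Fin 12) ℚ :=
  !![0,0,0,0,0,0,0,-12,48,-12,-12,-12;0,0,0,0,0,0,0,-12,-12,48,-12,-12;0,0,0,0,0,0,0,-12,-12,-12,48,-12;0,0,0,0,0,0,0,-12,-12,-12,-12,48;0,-60,0,0,15,15,15,-3,-3,-3,-3,-3;30,30,30,-30,15,15,15,-3,-3,-3,-3,-3;-60,0,0,0,15,15,15,-3,-3,-3,-3,-3;30,30,-30,30,15,15,15,-3,-3,-3,-3,-3;0,0,-30,-30,20,-40,20,12,12,12,12,12;0,0,30,30,20,20,-40,12,12,12,12,12;0,0,-30,-30,-20,40,-20,12,12,12,12,12;0,0,30,30,-20,-20,40,12,12,12,12,12]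

lemma int3 : mt y3 * P3 = P3 * mt z3 := by decide +kernel

lemma inv3 : P3 * Q3 = (27 : ℚ) • 1 := by decide +kernel

lemma int4 : mt y4 * P4 = P4 * mt z4 := by decide +kernel

lemma inv4 : P4 * Q4 = (720 : ℚ) • 1 := by decide +kernel

lemma zz3 (a b : Fin 2 × Fin 3) : (mCn 2 3)ᶜ.Adj a b ↔ z3 (e3 (Sum.inr a)) (e3 (Sum.inr b)) = true := by
  revert a b
  decide +kernel

lemma zl3 (a : Fin 4) (y : Fin 4 ⊕ (Fin 2 × Fin 3)) :
    z3 (e3 (Sum.inl a)) (e3 y) = false ∧ z3 (e3 y) (e3 (Sum.inl a)) = false := by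
  revert a y
  decide +kernel

lemma zz4 (a b : Fin 2 × Fin 4) : (mCn 2 4)ᶜ.Adj a b ↔ z4 (e4 (Sum.inr a)) (e4 (Sum.inr b)) = true := by
  revert a b
  decide +kernel

lemma zl4 (a : Fin 4) (y : Fin 4 ⊕ (Fin 2 × Fin 4)) :
    z4 (e4 (Sum.inl a)) (e4 y) = false ∧ z4 (e4 y) (e4 (Sum.inl a)) = false := by
  revert a y
  decide +kernel

lemma cos3 : Cospectral Y3 ((⊥ : SimpleGraph (Fin 4)) ⊕g (mCn 2 3)ᶜ) := by
  refine cos_of y3 z3 Y3 _ e3 (fun _ _ => Iff.rfl) ?_
    (charpoly_similar _ _ _ _ 27 (by norm_num) int3 inv3)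
  intro x y
  rcases x with x | x
  · rw [(zl3 x y).1]
    rcases y with y | y <;> simp
  · rcases y with y | y
    · rw [(zl3 y (Sum.inr x)).2]
      simp
    · rw [← zz3]
      simp

lemma cos4 : Cospectral Y4 ((⊥ : SimpleGraph (Fin 4)) ⊕g (mCn 2 4)ᶜ) := by
  refine cos_of y4 z4 Y4 _ e4 (fun _ _ => Iff.rfl) ?_
    (charpoly_similar _ _ _ _ 720 (by norm_num) int4 inv4)
  intro x y
  rcases x with x | x
  · rw [(zl4 x y).1]
    rcases y with y | y <;> simp
  · rcases y with y | y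
    · rw [(zl4 y (Sum.inr x)).2]
      simp
    · rw [← zz4]
      simp

/-- **For every `w ≥ 4` the complements of the multicone graphs `K_w ▽ 2 C₃` and `K_w ▽ 2 C₄` are
not determined by their adjacency spectra.** -/
theorem result (w : ℕ) (hw : 4 ≤ w) (n : ℕ) (hn : n = 3 ∨ n = 4) :
    ¬ IsDS (multicone w 2 n)ᶜ := by
  obtain ⟨k, rfl⟩ : ∃ k, w = k + 4 := ⟨w - 4, by omega⟩
  rcases hn with rfl | rfl
  · exact notDS 4 2 3 k Y3 3 0 cos3 (by decide) (by decide)
  · exact notDS 4 2 4 k Y4 5 4 cos4 (by decide) (by decide)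

end Pool.Agent.Results.MP_cd2ba9_co.NotDS
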